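import Pool.Agent.Lib.MP_226ef1_lc.U.Iface

/-!
# Module RANK
-/

set_option autoImplicit false

namespace Pool.Agent.Lib.MP_226ef1_lc.U.H58

open Pool.Agent.Lib.MP_226ef1_lc.U

universe u

theorem par_nil {α : Type u} (p : α → Prop) : par p ([] : List α) = 0 := by
  classical
  simp [par]

theorem par_cons_true {α : Type u} (p : α → Prop) (a : α) (w : List α) (h : p a) :
    par p (a :: w) = 1 - par p w := by
  classical
  simp only [par, List.countP_cons, h, decide_true, if_true]
  omega

theorem par_cons_false {α : Type u} (p : α → Prop) (a : α) (w : List α) (h : ¬ p a) :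
    par p (a :: w) = par p w := by
  classical
  simp [par, List.countP_cons, h]

theorem par_lt {α : Type u} (p : α → Prop) (w : List α) : par p w < 2 := by
  classical
  exact Nat.mod_lt _ (by norm_num)

theorem exists_of_par_one {α : Type u} (p : α → Prop) (w : List α) (h : par p w = 1) :
    ∃ a ∈ w, p a := by
  by_contra hcon
  push Not at hcon
  have : ∀ w : List α, (∀ a ∈ w, ¬ p a) → par p w = 0 := by
    intro w
    induction w with
    | nil => intro _; exact par_nil p
    | cons a w ih =>
      intro hw
      rw [par_cons_false p a w (hw a (by simp))]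
      exact ih fun b hb => hw b (by simp [hb])
  rw [this w hcon] at h
  exact absurd h (by norm_num)

theorem cnt_append {α : Type u} (a : α) (w w' : List α) : cnt a (w ++ w') = cnt a w + cnt a w' := by
  classical
  simp [cnt, List.count_append]

theorem rank : RankStatement.{u} := by
  intro l T _ hL hE G hG hR
  have hcomm1 : ∀ t ∈ G, ee l G * (t : WithOne T) = (t : WithOne T) * ee l G := fun t ht =>
    hE.comm G t ht
  have hsq : ∀ t ∈ G, ee l G * (t : WithOne T) * (t : WithOne T) = ee l G := fun t ht =>
    hE.sq G t ht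
  have heq : ∀ x ∈ G, ∀ y ∈ G, mn l G x → mn l G y →
      ee l G * (x : WithOne T) = ee l G * (y : WithOne T) := by
    intro x hx y hy hmx hmy
    have h1 := hR x hx y hy hmx hmy
    have h2 : ee l G * (x : WithOne T) * (y : WithOne T) * (y : WithOne T) =
        ee l G * (x : WithOne T) := by
      rw [hcomm1 x hx, mul_assoc, mul_assoc, ← mul_assoc (ee l G), hsq y hy, ← hcomm1 x hx]
    rw [← h2, h1]
  have key : ∀ w : List T, (∀ t ∈ w, t ∈ G) →
      (par (mn l G) w = 0 → ee l G * prd w = ee l G) ∧
      (par (mn l G) w = 1 → ∀ m ∈ G, mn l G m → ee l G * prd w = ee l G * (m : WithOne T)) := by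
    intro w
    induction w with
    | nil =>
      intro _
      refine ⟨fun _ => by simp, fun h => ?_⟩
      rw [par_nil] at h
      exact absurd h (by norm_num)
    | cons t w ih =>
      intro hw
      have htG : t ∈ G := hw t (by simp)
      obtain ⟨ih0, ih1⟩ := ih fun s hs => hw s (by simp [hs])
      by_cases ht : mn l G t
      · have hp := par_cons_true (mn l G) t w ht
        have hlt := par_lt (mn l G) w
        refine ⟨fun h => ?_, fun h m hm hmm => ?_⟩
        · have h1 : par (mn l G) w = 1 := by omega
          rw [prd_cons, ← mul_assoc, hcomm1 t htG, mul_assoc, ih1 h1 t htG ht, ← mul_assoc,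
            ← hcomm1 t htG, hsq t htG]
        · have h1 : par (mn l G) w = 0 := by omega
          rw [prd_cons, ← mul_assoc, hcomm1 t htG, mul_assoc, ih0 h1, ← hcomm1 t htG]
          exact heq t htG m hm ht hmm
      · have hp := par_cons_false (mn l G) t w ht
        have ht' : ee l G * (t : WithOne T) = ee l G := by
          by_contra hcon
          exact ht hcon
        refine ⟨fun h => ?_, fun h m hm hmm => ?_⟩
        · rw [prd_cons, ← mul_assoc, ht']
          exact ih0 (by rw [← hp]; exact h)
        · rw [prd_cons, ← mul_assoc, ht']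
          exact ih1 (by rw [← hp]; exact h) m hm hmm
  refine ⟨fun w hw h => (key w hw).1 h, ?_, ?_, ?_, ?_, ?_⟩
  · intro w hw h
    obtain ⟨m, hm, hmm⟩ := exists_of_par_one _ w h
    rw [(key w hw).2 h m (hw m hm) hmm]
    exact hmm
  · intro w w' hw hw' h
    have hlt := par_lt (mn l G) w
    rcases Nat.lt_or_ge (par (mn l G) w) 1 with h0 | h1
    · have e0 : par (mn l G) w = 0 := by omega
      rw [(key w hw).1 e0, (key w' hw').1 (by omega)]
    · have e1 : par (mn l G) w = 1 := by omega
      obtain ⟨m, hm, hmm⟩ := exists_of_par_one _ w e1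
      rw [(key w hw).2 e1 m (hw m hm) hmm, (key w' hw').2 (by omega) m (hw m hm) hmm]
  · intro w hw
    induction w with
    | nil => simp
    | cons t w ih =>
      have htG : t ∈ G := hw t (by simp)
      rw [prd_cons, ← mul_assoc, hcomm1 t htG, mul_assoc, ih fun s hs => hw s (by simp [hs]),
        mul_assoc]
  · intro Y Y' hY hYY' hY'G
    obtain ⟨hYne, hYG, hYe⟩ := hY
    have hY'ne : Y'.Nonempty := hYne.mono hYY'
    refine ⟨hY'ne, hY'G, ?_⟩
    have h1 : ee l Y * ee l Y' = ee l Y' := hE.mul Y Y' Y' hYne hY'ne fun t =>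
      ⟨fun h => Or.inr h, fun h => h.elim (fun h => hYY' h) id⟩
    have h2 : ee l G * ee l Y' = ee l G := hE.mul G Y' G hG hY'ne fun t =>
      ⟨fun h => Or.inl h, fun h => h.elim id (fun h => hY'G h)⟩
    rw [← h1, hYe, h2]
  · intro w Y hw hmem hY
    obtain ⟨hYne, hYG, hYe⟩ := hY
    rw [← hYe]
    have h1 : prd w = prd (dbl l Y ++ w) := by
      refine hL w (dbl l Y ++ w) hw ?_ ?_ ?_
      · rw [List.length_append]; omega
      · intro t
        rw [List.mem_append, hE.dbl_mem Y t, hmem t]
        simp
      · intro t
        rw [cnt_append]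
        have := hE.dbl_cnt Y t
        omega
    rw [prd_append] at h1
    exact h1

end Pool.Agent.Lib.MP_226ef1_lc.U.H58
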